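import Mathlib

namespace Pool.Agent.Results.MP_0c6837_al.NotTopFree

open Set Filter Topology MeasureTheory

section Defs
variable {G X : Type*} [Group G] [TopologicalSpace X]

/-- Every orbit is dense. -/
def Minimal (φ : G →* (X ≃ₜ X)) : Prop := ∀ x, Dense (range fun g => φ g x)

/-- The weak-* closure of the orbit of every Borel probability measure contains a Dirac mass. -/
def StronglyProximal [MeasurableSpace X] [BorelSpace X] (φ : G →* (X ≃ₜ X)) : Prop :=
  ∀ μ : ProbabilityMeasure X, ∃ x : X, diracProba x ∈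
    closure (range fun g => μ.map (φ g).continuous.measurable.aemeasurable)

/-- The points with trivial stabilizer are dense. -/
def TopologicallyFree (φ : G →* (X ≃ₜ X)) : Prop := Dense {x | ∀ g, φ g x = x → g = 1}

end Defs

/-- The inverse letter. -/
def inv {ι : Type} (s : ι × Bool) : ι × Bool := (s.1, !s.2)

@[simp] theorem inv_inv' {ι : Type} (s : ι × Bool) : inv (inv s) = s := by simp [inv]
@[simp] theorem inv_fst {ι : Type} (s : ι × Bool) : (inv s).1 = s.1 := rfl
theorem inv_ne {ι : Type} (s : ι × Bool) : inv s ≠ s := by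
  intro h
  have := congrArg Prod.snd h
  simp [inv] at this
theorem ne_of_fst {ι : Type} {s t : ι × Bool} (h : s.1 ≠ t.1) : s ≠ t := fun e => h (e ▸ rfl)

/-- Infinite reduced words. -/
def Om (k : ℕ) : Type := {x : ℕ → Fin k × Bool // ∀ n, x (n + 1) ≠ inv (x n)}

variable {k : ℕ}

instance : TopologicalSpace (Om k) :=
  inferInstanceAs (TopologicalSpace {x : ℕ → Fin k × Bool // ∀ n, x (n + 1) ≠ inv (x n)})
instance : T2Space (Om k) :=
  inferInstanceAs (T2Space {x : ℕ → Fin k × Bool // ∀ n, x (n + 1) ≠ inv (x n)})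
instance : CompactSpace (Om k) := by
  have : IsClosed {x : ℕ → Fin k × Bool | ∀ n, x (n + 1) ≠ inv (x n)} := by
    simp only [ofPred_forall]
    refine isClosed_iInter fun n => ?_
    exact (isClosed_discrete {p : (Fin k × Bool) × (Fin k × Bool) | p.1 ≠ inv p.2}).preimage
      (f := fun x : ℕ → Fin k × Bool => (x (n + 1), x n)) (by fun_prop)
  exact isCompact_iff_compactSpace.1 this.isCompact

theorem cont_ev (n : ℕ) : Continuous fun x : Om k => x.1 n :=
  (continuous_apply n).comp continuous_subtype_val

theorem cont_iff {Y : Type*} [TopologicalSpace Y] {f : Y → Om k} :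
    Continuous f ↔ ∀ n, Continuous fun y => (f y).1 n :=
  ⟨fun h n => (cont_ev n).comp h, fun h => continuous_induced_rng.2 (continuous_pi h)⟩

theorem tendsto_iff {Y : Type*} {l : Filter Y} {f : Y → Om k} {z : Om k}
    (h : ∀ n, ∀ᶠ y in l, (f y).1 n = z.1 n) : Tendsto f l (𝓝 z) :=
  tendsto_subtype_rng.2 (tendsto_pi_nhds.2 fun n =>
    tendsto_const_nhds.congr' ((h n).mono fun _ hy => hy.symm))

theorem cont_ite {Y Z : Type*} [TopologicalSpace Y] [TopologicalSpace Z] {P : Y → Prop}
    [DecidablePred P] (hP : IsClopen {y | P y}) {f g : Y → Z} (hf : Continuous f)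
    (hg : Continuous g) : Continuous fun y => if P y then f y else g y :=
  Continuous.if (fun a ha => by rw [hP.frontier_eq] at ha; exact ha.elim) hf hg

theorem clopen_ev {Y : Type*} [TopologicalSpace Y] {f : Y → Om k} (hf : Continuous f) (n : ℕ)
    (P : Fin k × Bool → Prop) : IsClopen {y | P ((f y).1 n)} :=
  (isClopen_discrete {s | P s}).preimage ((cont_ev n).comp hf)

/-- Remove the first letter. -/
def tail (x : Om k) : Om k := ⟨fun n => x.1 (n + 1), fun n => x.2 (n + 1)⟩

/-- The constant word. -/
def const (t : Fin k × Bool) : Om k := ⟨fun _ => t, fun _ => (inv_ne t).symm⟩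

/-- Invert every letter. -/
def flip (x : Om k) : Om k := ⟨fun n => inv (x.1 n), fun n h => x.2 n (by
  have := congrArg inv h
  simpa using this)⟩

/-- Left multiplication by a letter. -/
def act (s : Fin k × Bool) (x : Om k) : Om k :=
  ⟨fun n => if x.1 0 = inv s then x.1 (n + 1) else Nat.casesOn n s x.1, fun n => by
    split_ifs with h
    · exact x.2 (n + 1)
    · cases n with
      | zero => exact h
      | succ n => exact x.2 n⟩

theorem act_pos {s : Fin k × Bool} {x : Om k} (h : x.1 0 = inv s) : act s x = tail x :=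
  Subtype.ext (funext fun _ => if_pos h)
theorem act_zero {s : Fin k × Bool} {x : Om k} (h : x.1 0 ≠ inv s) : (act s x).1 0 = s :=
  if_neg h
theorem act_succ {s : Fin k × Bool} {x : Om k} (h : x.1 0 ≠ inv s) (n : ℕ) :
    (act s x).1 (n + 1) = x.1 n := if_neg h
theorem act_zero_ne {s : Fin k × Bool} {x : Om k} (h : x.1 0 = inv s) : (act s x).1 0 ≠ s := by
  rw [act_pos h]
  have := x.2 0
  rwa [h, inv_inv'] at this

theorem act_tail (x : Om k) : act (x.1 0) (tail x) = x := by
  refine Subtype.ext (funext fun n => ?_)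
  cases n with
  | zero => exact act_zero (x.2 0)
  | succ n => exact act_succ (x.2 0) n

theorem act_inv (s : Fin k × Bool) (x : Om k) : act (inv s) (act s x) = x := by
  by_cases h : x.1 0 = inv s
  · rw [act_pos h, ← h, act_tail]
  · rw [act_pos (by rw [act_zero h, inv_inv'])]
    exact Subtype.ext (funext fun n => act_succ h n)

theorem cont_act (s : Fin k × Bool) : Continuous (act s) := by
  refine cont_iff.2 fun n => ?_
  refine cont_ite (clopen_ev continuous_id 0 (· = inv s)) (cont_ev _) ?_
  cases n with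
  | zero => exact continuous_const
  | succ n => exact cont_ev n

theorem cont_flip : Continuous (flip : Om k → Om k) :=
  cont_iff.2 fun n => (continuous_of_discreteTopology (f := inv)).comp (cont_ev n)

theorem flip_flip (x : Om k) : flip (flip x) = x :=
  Subtype.ext (funext fun _ => inv_inv' _)

theorem act_iter {s : Fin k × Bool} {x : Om k} (h : x.1 0 ≠ inv s) (n : ℕ) :
    ((act s)^[n] x).1 0 ≠ inv s ∧ ∀ j < n, ((act s)^[n] x).1 j = s := by
  induction n with
  | zero => exact ⟨h, fun j hj => absurd hj (by omega)⟩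
  | succ n ih =>
    rw [Function.iterate_succ_apply']
    refine ⟨by rw [act_zero ih.1]; exact (inv_ne s).symm, fun j hj => ?_⟩
    cases j with
    | zero => exact act_zero ih.1
    | succ j => rw [act_succ ih.1]; exact ih.2 j (by omega)

theorem reach (y : Om 2) (n : ℕ) : ∀ z : Om 2, ∃ M : List (Fin 2 × Bool),
    ∀ j ≤ n, (M.foldr act y).1 j = z.1 j := by
  induction n with
  | zero =>
    intro z
    by_cases h : y.1 0 = inv (z.1 0)
    · have hu : ((z.1 0).1 + 1) ≠ (z.1 0).1 := by
        generalize (z.1 0).1 = i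
        revert i; decide
      refine ⟨[z.1 0, ((z.1 0).1 + 1, true)], fun j hj => ?_⟩
      obtain rfl : j = 0 := by omega
      refine act_zero ?_
      change (act _ y).1 0 ≠ _
      rw [act_zero (by rw [h]; exact ne_of_fst hu.symm)]
      exact ne_of_fst hu
    · refine ⟨[z.1 0], fun j hj => ?_⟩
      obtain rfl : j = 0 := by omega
      exact act_zero h
  | succ n ih =>
    intro z
    obtain ⟨M, hM⟩ := ih (tail z)
    have h0 : (M.foldr act y).1 0 ≠ inv (z.1 0) := by
      rw [hM 0 (by omega)]; exact z.2 0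
    refine ⟨z.1 0 :: M, fun j hj => ?_⟩
    cases j with
    | zero => exact act_zero h0
    | succ j => exact (act_succ h0 j).trans (hM j (by omega))

/-- The homeomorphism `κ` from `W = {y₀ ∈ {e, e⁻¹}}` onto the whole space. -/
def kap (y : Om 2) : Om 2 := if y.1 0 = (0, true) then tail y else y

/-- The inverse `λ` of `κ`. -/
def lam (y : Om 2) : Om 2 := if y.1 0 = (0, false) then y else act (0, true) y

theorem lam_W (y : Om 2) : ((lam y).1 0).1 = 0 := by
  unfold lam
  split_ifs with h
  · rw [h]
  · rw [act_zero h]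

theorem kap_lam (y : Om 2) : kap (lam y) = y := by
  unfold lam kap
  by_cases h : y.1 0 = (0, false)
  · simp [h]
  · rw [if_neg h, if_pos (act_zero h)]
    exact Subtype.ext (funext fun n => act_succ h n)

theorem lam_kap {y : Om 2} (hy : (y.1 0).1 = 0) : lam (kap y) = y := by
  unfold lam kap
  by_cases h : y.1 0 = (0, true)
  · have h2 : (tail y).1 0 ≠ (0, false) := by
      have := y.2 0
      rwa [h] at this
    rw [if_pos h, if_neg h2, ← h, act_tail]
  · have h2 : y.1 0 = (0, false) := by
      rcases hy' : y.1 0 with ⟨i, b⟩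
      rw [hy'] at h hy
      cases b
      · simpa using hy
      · exact absurd (by simpa using hy) h
    rw [if_neg h, if_pos h2]

theorem cont_tail : Continuous (tail : Om k → Om k) := cont_iff.2 fun n => cont_ev (n + 1)

theorem cont_kap : Continuous kap :=
  cont_ite (clopen_ev continuous_id 0 (· = (0, true))) cont_tail continuous_id

theorem cont_lam : Continuous lam :=
  cont_ite (clopen_ev continuous_id 0 (· = (0, false))) continuous_id (cont_act _)

/-- The space. -/
def X : Type := Om 5 × Om 2

instance : TopologicalSpace X := inferInstanceAs (TopologicalSpace (Om 5 × Om 2))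
instance : T2Space X := inferInstanceAs (T2Space (Om 5 × Om 2))
instance : CompactSpace X := inferInstanceAs (CompactSpace (Om 5 × Om 2))
instance : MeasurableSpace X := borel X
instance : BorelSpace X := ⟨rfl⟩

/-- The action of the last generator (and its inverse). -/
def C (s : Fin 5 × Bool) (p : Om 5 × Om 2) : Om 5 × Om 2 :=
  if p.1.1 0 = inv s then (act s p.1, lam p.2)
  else if (p.2.1 0).1 = 0 then (act s p.1, kap p.2)
  else if p.1.1 0 = s then (flip p.1, p.2) else p

theorem C_inv (s : Fin 5 × Bool) (p : Om 5 × Om 2) : C (inv s) (C s p) = p := by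
  obtain ⟨x, y⟩ := p
  by_cases h1 : x.1 0 = inv s
  · have : C s (x, y) = (act s x, lam y) := if_pos h1
    rw [this, C, if_neg (by simpa using act_zero_ne h1), if_pos (lam_W y), act_inv, kap_lam]
  by_cases h2 : (y.1 0).1 = 0
  · have : C s (x, y) = (act s x, kap y) := (if_neg h1).trans (if_pos h2)
    rw [this, C, if_pos (by simpa using act_zero h1), act_inv, lam_kap h2]
  by_cases h3 : x.1 0 = s
  · have : C s (x, y) = (flip x, y) := (if_neg h1).trans ((if_neg h2).trans (if_pos h3))
    have h4 : (flip x).1 0 = inv s := congrArg inv h3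
    rw [this, C, if_neg (by rw [h4, inv_inv']; exact inv_ne s), if_neg h2, if_pos h4, flip_flip]
  · have : C s (x, y) = (x, y) := (if_neg h1).trans ((if_neg h2).trans (if_neg h3))
    rw [this, C, if_neg (by simpa using h3), if_neg h2, if_neg h1]

theorem cont_C (s : Fin 5 × Bool) : Continuous (C s) :=
  cont_ite (clopen_ev continuous_fst 0 (· = inv s)) ((cont_act s).prodMap cont_lam)
    (cont_ite (clopen_ev continuous_snd 0 (·.1 = 0)) ((cont_act s).prodMap cont_kap)
      (cont_ite (clopen_ev continuous_fst 0 (· = s)) (cont_flip.prodMap continuous_id)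
        continuous_id))

/-- The action on the second coordinate. -/
def sec (s : Fin 5 × Bool) (y : Om 2) : Om 2 :=
  if s.1 = 2 then act (0, s.2) y else if s.1 = 3 then act (1, s.2) y else y

theorem sec_inv (s : Fin 5 × Bool) (y : Om 2) : sec (inv s) (sec s y) = y := by
  unfold sec
  simp only [inv_fst]
  split_ifs
  · exact act_inv (0, s.2) y
  · exact act_inv (1, s.2) y
  · rfl

theorem cont_sec (s : Fin 5 × Bool) : Continuous (sec s) := by
  unfold sec
  split_ifs
  · exact cont_act _
  · exact cont_act _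
  · exact continuous_id

/-- The action of a letter. -/
def gen (s : Fin 5 × Bool) (p : Om 5 × Om 2) : Om 5 × Om 2 :=
  if s.1 = 4 then C s p else (act s p.1, sec s p.2)

theorem gen_inv (s : Fin 5 × Bool) (p : Om 5 × Om 2) : gen (inv s) (gen s p) = p := by
  unfold gen
  simp only [inv_fst]
  split_ifs
  · exact C_inv s p
  · rw [act_inv, sec_inv]

theorem cont_gen (s : Fin 5 × Bool) : Continuous (gen s) := by
  unfold gen
  split_ifs
  · exact cont_C s
  · exact (cont_act s).prodMap (cont_sec s)

/-- The generators as homeomorphisms. -/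
def hom (i : Fin 5) : X ≃ₜ X where
  toFun := gen (i, true)
  invFun := gen (i, false)
  left_inv := gen_inv (i, true)
  right_inv := gen_inv (i, false)
  continuous_toFun := cont_gen _
  continuous_invFun := cont_gen _

/-- The action. -/
def φ : FreeGroup (Fin 5) →* (X ≃ₜ X) := FreeGroup.lift hom

/-- The group element of a letter. -/
def el (s : Fin 5 × Bool) : FreeGroup (Fin 5) := FreeGroup.mk [s]

theorem φ_el (s : Fin 5 × Bool) (p : X) : φ (el s) p = gen s p := by
  obtain ⟨i, b⟩ := s
  cases b <;> rfl

theorem φ_mul (g h : FreeGroup (Fin 5)) (p : X) : φ (g * h) p = φ g (φ h p) := by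
  rw [map_mul]; rfl

theorem φ_cons (s : Fin 5 × Bool) (L : List (Fin 5 × Bool)) (p : X) :
    φ (FreeGroup.mk (s :: L)) p = gen s (φ (FreeGroup.mk L) p) := by
  rw [← φ_el, ← φ_mul, el, FreeGroup.mul_mk]; rfl

theorem vert1 {s : Fin 5 × Bool} {x : Om 5} (h : x.1 0 ≠ inv s) (y' : Om 2) :
    ∃ y, gen s (x, y) = (act s x, y') := by
  unfold gen
  split_ifs
  · exact ⟨lam y', by rw [C, if_neg h, if_pos (lam_W y'), kap_lam]⟩
  · exact ⟨sec (inv s) y', by
      have := sec_inv (inv s) y'
      rw [inv_inv'] at this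
      simp only [this]⟩

theorem vert (n : ℕ) : ∀ (z : Om 5) (y' : Om 2), ∃ y : Om 2,
    φ (FreeGroup.mk (List.ofFn fun i : Fin n => z.1 i)) (tail^[n] z, y) = (z, y') := by
  induction n with
  | zero => exact fun z y' => ⟨y', rfl⟩
  | succ n ih =>
    intro z y'
    obtain ⟨y1, h1⟩ := vert1 (s := z.1 0) (x := tail z) (z.2 0) y'
    obtain ⟨y, h2⟩ := ih (tail z) y1
    refine ⟨y, ?_⟩
    rw [List.ofFn_succ, φ_cons]
    rw [act_tail] at h1
    rw [← h1, ← h2]
    rfl

theorem tail_iter (n : ℕ) (z : Om k) (j : ℕ) : (tail^[n] z).1 j = z.1 (j + n) := by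
  induction n generalizing z with
  | zero => rfl
  | succ n ih => rw [Function.iterate_succ_apply, ih]; rfl

theorem faithful : Function.Injective φ := by
  refine (injective_iff_map_eq_one φ).2 fun g hg => ?_
  by_contra hne
  have hL : g.toWord ≠ [] := fun h => hne (FreeGroup.toWord_eq_nil_iff.1 h)
  have hred : FreeGroup.IsReduced g.toWord := FreeGroup.isReduced_toWord
  set L := g.toWord with hLdef
  have hlen : 0 < L.length := List.length_pos_iff.2 hL
  let t : Fin 5 × Bool := ((L[L.length - 1]).1 + 1, true)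
  have ht : t.1 ≠ (L[L.length - 1]).1 := by
    simp only [t]
    generalize (L[L.length - 1]).1 = i
    revert i; decide
  let z : Om 5 := ⟨fun j => if h : j < L.length then L[j] else t, fun j => by
    by_cases h1 : j + 1 < L.length
    · have h2 : j < L.length := by omega
      simp only [h1, h2, dif_pos]
      intro h
      have h3 := List.isChain_iff_getElem.1 hred j h1
      rw [h] at h3
      have := h3 rfl
      simp [inv] at this
    · by_cases h2 : j < L.length
      · simp only [h1, h2, dif_pos, dif_neg, not_false_eq_true]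
        obtain rfl : j = L.length - 1 := by omega
        exact ne_of_fst ht
      · simp only [h1, h2, dif_neg, not_false_eq_true]
        exact (inv_ne t).symm⟩
  obtain ⟨y, hy⟩ := vert L.length z (const (0, true))
  have hw : (List.ofFn fun i : Fin L.length => z.1 i) = L := by
    refine List.ext_getElem (by simp) fun j h1 h2 => ?_
    simp [z]
  rw [hw, hLdef, FreeGroup.mk_toWord, hg] at hy
  have h1 : (tail^[L.length] z).1 (L.length - 1) = z.1 (L.length - 1) :=
    congrArg (fun p : Om 5 × Om 2 => p.1.1 (L.length - 1)) hy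
  rw [tail_iter] at h1
  have h2 : ¬ (L.length - 1 + L.length < L.length) := by omega
  have h3 : L.length - 1 < L.length := by omega
  simp only [z, h2, h3, dif_pos, dif_neg, not_false_eq_true] at h1
  exact ne_of_fst ht h1

theorem gen_low {s : Fin 5 × Bool} (hs : s.1 = 0 ∨ s.1 = 1) (p : Om 5 × Om 2) :
    gen s p = (act s p.1, p.2) := by
  obtain ⟨i, b⟩ := s
  rcases hs with rfl | rfl <;> rfl

theorem gen_sec (s : Fin 2 × Bool) (p : Om 5 × Om 2) :
    (gen (s.1.natAdd 2 |>.castSucc, s.2) p).2 = act s p.2 := by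
  obtain ⟨i, b⟩ := s
  fin_cases i <;> rfl

theorem φ_pow (s : Fin 5 × Bool) (n : ℕ) (p : X) : φ (el s ^ n) p = (gen s)^[n] p := by
  induction n with
  | zero => rfl
  | succ n ih => rw [pow_succ', φ_mul, φ_el, ih, Function.iterate_succ_apply']

theorem gen_low_iter {s : Fin 5 × Bool} (hs : s.1 = 0 ∨ s.1 = 1) (n : ℕ) (p : Om 5 × Om 2) :
    (gen s)^[n] p = ((act s)^[n] p.1, p.2) := by
  induction n with
  | zero => rfl
  | succ n ih => rw [Function.iterate_succ_apply', ih, gen_low hs, Function.iterate_succ_apply']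

theorem minimal : Minimal φ := by
  intro p
  set Z := closure (range fun g => φ g p) with hZ
  have hinv : ∀ g, ∀ q ∈ Z, φ g q ∈ Z := by
    intro g q hq
    refine map_mem_closure (φ g).continuous hq ?_
    rintro _ ⟨h, rfl⟩
    exact ⟨g * h, φ_mul g h p⟩
  have hc : IsClosed Z := isClosed_closure
  have h1 : ∀ t : Fin 5 × Bool, (t.1 = 0 ∨ t.1 = 1) → ∀ (x : Om 5) (y : Om 2),
      ((x, y) : Om 5 × Om 2) ∈ Z → ((const t, y) : Om 5 × Om 2) ∈ Z := by
    intro t ht x y hxy
    obtain ⟨x', hx', hxy'⟩ : ∃ x' : Om 5, x'.1 0 ≠ inv t ∧ ((x', y) : Om 5 × Om 2) ∈ Z := by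
      by_cases h : x.1 0 = inv t
      · let u : Fin 5 × Bool := (1 - t.1, true)
        have hu : (u.1 = 0 ∨ u.1 = 1) ∧ u.1 ≠ t.1 := by
          simp only [u]
          rcases ht with h | h <;> rw [h] <;> decide
        have := hinv (el u) _ hxy
        rw [φ_el, gen_low hu.1] at this
        refine ⟨_, ?_, this⟩
        rw [act_zero (by rw [h]; exact ne_of_fst hu.2.symm)]
        exact ne_of_fst hu.2
      · exact ⟨x, h, hxy⟩
    have hlim : Tendsto (fun n => (((act t)^[n] x', y) : Om 5 × Om 2)) atTop (𝓝 (const t, y)) := by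
      refine Tendsto.prodMk_nhds (tendsto_iff fun j => ?_) tendsto_const_nhds
      filter_upwards [eventually_gt_atTop j] with n hn
      exact (act_iter hx' n).2 j hn
    refine hc.mem_of_tendsto hlim (Eventually.of_forall fun n => ?_)
    have := hinv (el t ^ n) _ hxy'
    rwa [φ_pow, gen_low_iter ht] at this
  have h2 : ∀ M : List (Fin 2 × Bool), ∃ x : Om 5, ((x, M.foldr act p.2) : Om 5 × Om 2) ∈ Z := by
    intro M
    induction M with
    | nil => exact ⟨p.1, subset_closure ⟨1, rfl⟩⟩
    | cons s M ih =>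
      obtain ⟨x, hx⟩ := ih
      have := hinv (el (s.1.natAdd 2 |>.castSucc, s.2)) _ hx
      rw [φ_el] at this
      refine ⟨(gen (s.1.natAdd 2 |>.castSucc, s.2) (x, M.foldr act p.2)).1, ?_⟩
      rw [List.foldr_cons, ← gen_sec s (x, M.foldr act p.2)]
      exact this
  have h3 : ∀ t : Fin 5 × Bool, (t.1 = 0 ∨ t.1 = 1) → ∀ y : Om 2,
      ((const t, y) : Om 5 × Om 2) ∈ Z := by
    intro t ht y
    choose M hM using fun n => reach p.2 n y
    have hlim : Tendsto (fun n => ((const t, (M n).foldr act p.2) : Om 5 × Om 2)) atTop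
        (𝓝 (const t, y)) := by
      refine Tendsto.prodMk_nhds tendsto_const_nhds (tendsto_iff fun j => ?_)
      filter_upwards [eventually_ge_atTop j] with n hn
      exact hM n j hn
    refine hc.mem_of_tendsto hlim (Eventually.of_forall fun n => ?_)
    obtain ⟨x, hx⟩ := h2 (M n)
    exact h1 t ht x _ hx
  rintro ⟨z, y⟩
  have h4 : ∀ n : ℕ, ∃ z' : Om 5, (∀ j ≤ n, z'.1 j = z.1 j) ∧ ((z', y) : Om 5 × Om 2) ∈ Z := by
    intro n
    obtain ⟨t, ht, ht2⟩ : ∃ t : Fin 5 × Bool, (t.1 = 0 ∨ t.1 = 1) ∧ t ≠ inv (z.1 n) := by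
      by_cases h : (0, true) = inv (z.1 n)
      · exact ⟨(1, true), Or.inr rfl, by rw [← h]; decide⟩
      · exact ⟨(0, true), Or.inl rfl, h⟩
    let z' : Om 5 := ⟨fun j => if j ≤ n then z.1 j else t, fun j => by
      by_cases h1 : j + 1 ≤ n
      · simp only [h1, show j ≤ n by omega, if_true]
        exact z.2 j
      · by_cases h2 : j ≤ n
        · simp only [h1, h2, if_true, if_false]
          obtain rfl : j = n := by omega
          exact ht2
        · simp only [h1, h2, if_false]
          exact (inv_ne t).symm⟩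
    refine ⟨z', fun j hj => if_pos hj, ?_⟩
    obtain ⟨y0, hy0⟩ := vert (n + 1) z' y
    have e : tail^[n + 1] z' = const t := by
      refine Subtype.ext (funext fun j => ?_)
      rw [tail_iter]
      exact if_neg (by omega)
    rw [← hy0, e]
    exact hinv _ _ (h3 t ht y0)
  choose z' hz1 hz2 using h4
  have hlim : Tendsto (fun n => ((z' n, y) : Om 5 × Om 2)) atTop (𝓝 (z, y)) := by
    refine Tendsto.prodMk_nhds (tendsto_iff fun j => ?_) tendsto_const_nhds
    filter_upwards [eventually_ge_atTop j] with n hn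
    exact hz1 n j hn
  exact hc.mem_of_tendsto hlim (Eventually.of_forall hz2)

theorem contract (μ : Measure X) [IsProbabilityMeasure μ] {π : X → Om k} (hπ : Continuous π)
    (f : X → X) (hf : Continuous f) {a b : Fin k × Bool} (hab : a.1 ≠ b.1) (n : ℕ) {ε : ENNReal}
    (hε : 0 < ε) : ∃ j : ℕ,
      μ {p | ¬ ∀ i < n, ((act a)^[n] ((act b)^[j] (π (f p)))).1 i = a} ≤ ε := by
  let D : ℕ → Set X := fun j => {p | ((act b)^[j] (π (f p))).1 0 = inv a}
  have hm : ∀ j, MeasurableSet (D j) := fun j =>
    (clopen_ev (((cont_act b).iterate j).comp (hπ.comp hf)) 0 (· = inv a)).isOpen.measurableSet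
  have hd : Pairwise (Function.onFun Disjoint D) := by
    refine pairwise_disjoint_on D |>.2 fun i j hij => ?_
    refine disjoint_left.2 fun p h1 h2 => ?_
    obtain ⟨d, rfl⟩ := Nat.exists_eq_add_of_lt hij
    have h1' : ((act b)^[i] (π (f p))).1 0 = inv a := h1
    have h2' : ((act b)^[i + d + 1] (π (f p))).1 0 = inv a := h2
    rw [add_assoc, add_comm, Function.iterate_add_apply,
      (act_iter (by rw [h1']; exact ne_of_fst hab) (d + 1)).2 0 (by omega)] at h2'
    exact ne_of_fst (s := b) (t := inv a) hab.symm h2'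
  have hs : ∑' j, μ (D j) ≠ ⊤ := by
    rw [← measure_iUnion hd hm]
    exact measure_ne_top _ _
  obtain ⟨j, hj⟩ := ((ENNReal.tendsto_atTop_zero_of_tsum_ne_top hs).eventually
    (ge_mem_nhds hε)).exists
  refine ⟨j, le_trans (measure_mono fun p hp => ?_) hj⟩
  by_contra h
  exact hp (act_iter h n).2

theorem gen_sec_iter (s : Fin 2 × Bool) (n : ℕ) (p : Om 5 × Om 2) :
    ((gen (s.1.natAdd 2 |>.castSucc, s.2))^[n] p).2 = (act s)^[n] p.2 := by
  induction n with
  | zero => rfl
  | succ n ih => rw [Function.iterate_succ_apply', gen_sec, ih, Function.iterate_succ_apply']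

theorem sprox : StronglyProximal φ := by
  intro μ
  let q : X := (const (0, true), const (0, true))
  have key : ∀ n : ℕ, ∃ g, (μ : Measure X) {p | ¬ ∀ i < n, (φ g p).1.1 i = (0, true) ∧
      (φ g p).2.1 i = (0, true)} ≤ (n : ENNReal)⁻¹ := by
    intro n
    have hε : 0 < (n : ENNReal)⁻¹ / 2 := ENNReal.half_pos (by simp)
    obtain ⟨j, hj⟩ := contract (μ : Measure X) (π := Prod.snd) continuous_snd id continuous_id
      (a := (0, true)) (b := (1, true)) (by decide) n hε
    let h := el (2, true) ^ n * el (3, true) ^ j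
    obtain ⟨l, hl⟩ := contract (μ : Measure X) (π := Prod.fst) continuous_fst (φ h)
      (φ h).continuous (a := (0, true)) (b := (1, true)) (by decide) n hε
    refine ⟨el (0, true) ^ n * el (1, true) ^ l * h, ?_⟩
    rw [← ENNReal.add_halves (n : ENNReal)⁻¹]
    refine le_trans (measure_mono fun p hp => ?_) ((measure_union_le _ _).trans (add_le_add hj hl))
    by_contra hc
    rw [mem_union, not_or] at hc
    have c1 := not_not.1 hc.1
    have c2 := not_not.1 hc.2
    apply hp
    intro i hi
    rw [φ_mul, φ_mul, φ_pow, φ_pow, gen_low_iter (Or.inl rfl), gen_low_iter (Or.inr rfl)]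
    refine ⟨c2 i hi, ?_⟩
    change (φ h p).2.1 i = _
    rw [φ_mul, φ_pow, φ_pow]
    have e1 := gen_sec_iter (0, true) n ((gen (3, true))^[j] p)
    have e2 := gen_sec_iter (1, true) j p
    exact (congrArg (fun y : Om 2 => y.1 i) (e1.trans (congrArg _ e2))).trans (c1 i hi)
  choose g hg using key
  refine ⟨q, mem_closure_of_tendsto (b := atTop)
    (f := fun n => μ.map (φ (g n)).continuous.measurable.aemeasurable) ?_
    (Eventually.of_forall fun n => ⟨g n, rfl⟩)⟩
  refine tendsto_of_forall_isClosed_limsup_le' fun F hF => ?_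
  by_cases hq : q ∈ F
  · have : (diracProba q : Measure X) F = 1 := Measure.dirac_apply_of_mem hq
    rw [this]
    exact limsup_le_of_le (by isBoundedDefault) (Eventually.of_forall fun n => prob_le_one)
  · have hev : ∀ᶠ n : ℕ in atTop, ∀ p : X,
        (∀ i < n, p.1.1 i = (0, true) ∧ p.2.1 i = (0, true)) → p ∉ F := by
      by_contra hcon
      rw [not_eventually] at hcon
      have hall : ∀ n : ℕ, ∃ p : X,
          (∀ i < n, p.1.1 i = (0, true) ∧ p.2.1 i = (0, true)) ∧ p ∈ F := by
        intro n
        obtain ⟨m, hm, h⟩ := frequently_atTop.1 hcon n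
        push Not at h
        obtain ⟨p, h1, h2⟩ := h
        exact ⟨p, fun i hi => h1 i (by omega), h2⟩
      choose p hp1 hp2 using hall
      have hlim : Tendsto (fun n => (((p n).1, (p n).2) : Om 5 × Om 2)) atTop
          (𝓝 (const (0, true), const (0, true))) := by
        refine Tendsto.prodMk_nhds (tendsto_iff fun j => ?_) (tendsto_iff fun j => ?_)
        · filter_upwards [eventually_gt_atTop j] with n hn using (hp1 n j hn).1
        · filter_upwards [eventually_gt_atTop j] with n hn using (hp1 n j hn).2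
      exact hq (hF.mem_of_tendsto hlim (Eventually.of_forall hp2))
    have ht : Tendsto (fun n => ((μ.map (φ (g n)).continuous.measurable.aemeasurable :
        ProbabilityMeasure X) : Measure X) F) atTop (𝓝 0) := by
      refine tendsto_of_tendsto_of_tendsto_of_le_of_le' tendsto_const_nhds
        ENNReal.tendsto_inv_nat_nhds_zero (Eventually.of_forall fun n => zero_le) ?_
      filter_upwards [hev] with n hn
      rw [ProbabilityMeasure.toMeasure_map,
        Measure.map_apply (φ (g n)).continuous.measurable hF.measurableSet]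
      exact le_trans (measure_mono fun p hp h => hn _ h hp) (hg n)
    rw [ht.limsup_eq]
    exact zero_le

theorem notfree : ¬ TopologicallyFree φ := by
  intro h
  have ho : IsOpen {p : X | (p.1.1 0).1 = 0 ∧ (p.2.1 0).1 = 1} :=
    ((clopen_ev (Y := X) continuous_fst 0 (·.1 = 0)).inter
      (clopen_ev (Y := X) continuous_snd 0 (·.1 = 1))).isOpen
  obtain ⟨p, ⟨h1, h2⟩, hp⟩ := h.inter_open_nonempty _ ho
    ⟨(const (0, true), const (1, true)), rfl, rfl⟩
  have := hp (FreeGroup.of 4) (by
    change φ (el (4, true)) p = p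
    rw [φ_el, gen, if_pos rfl, C, if_neg (ne_of_fst (by rw [h1]; decide)),
      if_neg (by rw [h2]; decide), if_neg (ne_of_fst (by rw [h1]; decide))])
  exact FreeGroup.of_ne_one _ this

/-- There is a faithful, minimal, strongly proximal action of the free group `F₅` on a nonempty
compact Hausdorff space that is not topologically free. -/
theorem result : ∃ (n : ℕ) (Y : Type) (_ : TopologicalSpace Y) (_ : CompactSpace Y)
    (_ : T2Space Y) (_ : Nonempty Y) (_ : MeasurableSpace Y) (_ : BorelSpace Y)
    (ψ : FreeGroup (Fin n) →* (Y ≃ₜ Y)),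
    Function.Injective ψ ∧ Minimal ψ ∧ StronglyProximal ψ ∧ ¬ TopologicallyFree ψ :=
  ⟨5, X, inferInstance, inferInstance, inferInstance, ⟨(const (0, true), const (0, true))⟩,
    inferInstance, inferInstance, φ, faithful, minimal, sprox, notfree⟩

end Pool.Agent.Results.MP_0c6837_al.NotTopFree
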